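import Pool.Agent.H20.ER3.Lib

/-!
# er3_modules, row QA: in a minimal odd prism a root in the interior of a rung is the interior of
a path.
-/

set_option autoImplicit false
set_option linter.unusedVariables false
set_option linter.unusedSectionVars false

namespace Pool.Agent.H78.ER3

open Pool.Agent.H48.ER Pool.Agent.H52.ER2 Pool.Agent.H66.ER2 Pool.Agent.H20.ER3

section

variable {V : Type} {G : SimpleGraph V} {R F : Set V}

/-- a connected set together with two vertices which have neighbours in it is connected -/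
theorem cn_insert2 {c d f f' : V} (hF : Cn G F) (hf : f ∈ F) (hf' : f' ∈ F) (hc : G.Adj c f)
    (hd : G.Adj d f') : Cn G (insert c (insert d F)) := by
  intro X hX hne hcl
  have hFD : F ⊆ insert c (insert d F) := fun w hw => Or.inr (Or.inr hw)
  have key : (X ∩ F).Nonempty := by
    obtain ⟨w, hw⟩ := hne
    rcases hX hw with e | e | e
    · exact ⟨f, hcl w hw f (hFD hf) (e ▸ hc), hf⟩
    · exact ⟨f', hcl w hw f' (hFD hf') (e ▸ hd), hf'⟩
    · exact ⟨w, hw, e⟩
  have h1 : X ∩ F = F := by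
    refine hF (X ∩ F) Set.inter_subset_right key ?_
    intro u hu w hw ha
    exact ⟨hcl u hu.1 w (hFD hw) ha, hw⟩
  have h2 : F ⊆ X := fun w hw => (h1.symm ▸ hw : w ∈ X ∩ F).1
  refine Set.Subset.antisymm hX ?_
  rintro w (e | e | e)
  · exact hcl f (h2 hf) w (Or.inl e) (e ▸ hc.symm)
  · exact hcl f' (h2 hf') w (Or.inr (Or.inl e)) (e ▸ hd.symm)
  · exact h2 e

/-- replace the root of an interior vertex of the rung `0` by a root of a subset -/
theorem replace_root [Finite V] {o : Prop} {n : Fin 3 → ℕ} {g : Fin 3 → ℕ → V ⊕ Set V}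
    (hPR : U_PR) (hGW : U_GW) (hM : MP o G R n g) {k : ℕ} (hk : 0 < k) (hkn : k < n 0)
    (hg : g 0 k = Sum.inr F) {c d : V} (hc : g 0 (k - 1) = Sum.inl c)
    (hd : g 0 (k + 1) = Sum.inl d) {F0 : Set V} (hs : F0 ⊆ F) (hC0 : Sees G R F0 c)
    (hD0 : Sees G R F0 d) (hFc : Sees G R F c) : F0 = F := by
  classical
  by_contra hne
  have hlt : F0.ncard < F.ncard :=
    Set.ncard_lt_ncard (LE.le.ssubset_of_ne hs hne) (Set.toFinite _)
  have hmono : ∀ a, Sees G R F0 a → Sees G R F a := fun a h =>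
    h.mono hs hFc.2.1 hFc.2.2.1
  have pi := hM.pi
  -- `inr F0` is a new vertex
  have hnew : ∀ j l, l ≤ n j → g j l = Sum.inr F0 → j = 0 ∧ l = k := by
    intro j l hl e
    have h1 : (MG G R).Adj (g 0 (k - 1)) (g j l) := by rw [e, hc]; exact hC0
    have h2 : (MG G R).Adj (g 0 (k + 1)) (g j l) := by rw [e, hd]; exact hD0
    rw [pi.adj _ _ _ _ (by omega) hl] at h1 h2
    have hp := pi.pos j
    by_cases hj : j = 0
    · subst hj
      refine ⟨rfl, ?_⟩
      rcases h1 with ⟨_, h1⟩ | ⟨h1, _⟩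
      · rcases h2 with ⟨_, h2⟩ | ⟨h2, _⟩
        · omega
        · exact absurd rfl h2
      · exact absurd rfl h1
    · rcases h1 with ⟨h1, _⟩ | ⟨_, h1⟩
      · exact absurd h1.symm hj
      · rcases h2 with ⟨h2, _⟩ | ⟨_, h2⟩
        · exact absurd h2.symm hj
        · omega
  have hnewne : ∀ j l, l ≤ n j → g j l ≠ Sum.inr F0 := by
    intro j l hl e
    obtain ⟨rfl, rfl⟩ := hnew j l hl e
    rw [hg] at e
    exact hne (Sum.inr.inj e).symm
  have hadj : ∀ j l, l ≤ n j → (MG G R).Adj (Sum.inr F0) (g j l) →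
      j = 0 ∧ (k + 1 = l ∨ l + 1 = k) := by
    intro j l hl ha
    obtain ⟨a, ea, sa⟩ := root_adj ha
    have h1 : (MG G R).Adj (g 0 k) (g j l) := by
      rw [hg, ea]
      exact hmono a sa
    rw [pi.adj _ _ _ _ (by omega) hl] at h1
    rcases h1 with ⟨h1, h2⟩ | ⟨_, h2⟩
    · exact ⟨h1.symm, h2⟩
    · omega
  obtain ⟨h, hh⟩ : ∃ h : ℕ → V ⊕ Set V, h = Function.update (g 0) k (Sum.inr F0) := ⟨_, rfl⟩
  have hhk : h k = Sum.inr F0 := by rw [hh]; exact Function.update_self ..
  have hhn : ∀ i, i ≠ k → h i = g 0 i := fun i hi => by rw [hh]; exact Function.update_of_ne hi ..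
  have hPF : PF (MG G R) (n 0) h := by
    constructor
    · intro i j hi hj e
      by_cases h1 : i = k <;> by_cases h2 : j = k
      · rw [h1, h2]
      · rw [h1, hhk, hhn j h2] at e
        exact absurd e.symm (hnewne 0 j hj)
      · rw [h2, hhk, hhn i h1] at e
        exact absurd e (hnewne 0 i hi)
      · rw [hhn i h1, hhn j h2] at e
        exact (pi.inj 0 0 i j hi hj e).2
    · intro i j hi hj
      have side : ∀ j, j ≤ n 0 → j ≠ k →
          ((MG G R).Adj (Sum.inr F0) (g 0 j) ↔ k + 1 = j ∨ j + 1 = k) := by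
        intro j hj hjk
        constructor
        · intro ha
          exact (hadj 0 j hj ha).2
        · rintro (e | e)
          · rw [← e, hd]
            exact hD0
          · have e' : j = k - 1 := by omega
            rw [e', hc]
            exact hC0
      by_cases h1 : i = k <;> by_cases h2 : j = k
      · rw [h1, h2]
        constructor
        · intro e
          exact absurd e ((MG G R).loopless.irrefl _)
        · rintro (e | e) <;> omega
      · rw [h1, hhk, hhn j h2]
        exact side j hj h2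
      · rw [h2, hhk, hhn i h1, SimpleGraph.adj_comm, side i hi h1]
        exact Or.comm
      · rw [hhn i h1, hhn j h2, pi.adj _ _ _ _ hi hj]
        constructor
        · rintro (⟨_, e⟩ | ⟨e, _⟩)
          · exact e
          · exact absurd rfl e
        · intro e
          exact Or.inl ⟨rfl, e⟩
  have hcross : ∀ j k' l, j ≠ 0 → k' ≤ n 0 → l ≤ n j → h k' ≠ g j l ∧
      ((MG G R).Adj (h k') (g j l) ↔ (k' = 0 ∧ l = 0) ∨ (k' = n 0 ∧ l = n j)) := by
    intro j k' l hj hk' hl
    by_cases h1 : k' = k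
    · rw [h1, hhk]
      refine ⟨fun e => hnewne j l hl e.symm, ?_⟩
      constructor
      · intro ha
        exact absurd (hadj j l hl ha).1 hj
      · rintro (e | e) <;> omega
    · rw [hhn k' h1]
      refine ⟨fun e => hj (pi.inj 0 j k' l hk' hl e).1.symm, ?_⟩
      rw [pi.adj _ _ _ _ hk' hl]
      constructor
      · rintro (⟨e, _⟩ | ⟨_, e⟩)
        · exact absurd e.symm hj
        · exact e
      · intro e
        exact Or.inr ⟨fun e' => hj e'.symm, e⟩
  have hPI := hPR _ _ n g (n 0) h pi (by omega) hPF hcross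
  rw [Function.update_eq_self] at hPI
  obtain ⟨g', hg'⟩ : ∃ g', g' = Function.update g 0 h := ⟨_, rfl⟩
  rw [← hg'] at hPI
  have hsub : ∀ v, v ∈ vI n g' → v = Sum.inr F0 ∨ (v ∈ vI n g ∧ v ≠ Sum.inr F) := by
    rintro v ⟨i, l, hl, rfl⟩
    by_cases hi : i = 0
    · subst hi
      rw [hg', Function.update_self]
      by_cases h1 : l = k
      · left
        rw [h1, hhk]
      · right
        rw [hhn l h1]
        refine ⟨mem_vI hl, fun e => ?_⟩
        rw [← hg] at e
        exact h1 (pi.inj 0 0 l k hl hkn.le e).2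
    · right
      rw [hg', Function.update_of_ne hi]
      refine ⟨mem_vI hl, fun e => ?_⟩
      rw [← hg] at e
      exact hi (pi.inj i 0 l k hl hkn.le e).1
  have hrt : rt (vI n g') ⊆ insert F0 (rt (vI n g) \ {F}) := by
    intro F' hF'
    rcases hsub _ hF' with e | ⟨e1, e2⟩
    · exact Or.inl (Sum.inr.inj e)
    · exact Or.inr ⟨e1, fun e => e2 (congrArg Sum.inr e)⟩
  have hFrt : F ∈ rt (vI n g) := by
    show Sum.inr F ∈ vI n g
    rw [← hg]
    exact mem_vI hkn.le
  have hal : Al o G R (vI n g') := by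
    constructor
    · intro F' hF' r hr hrZ
      have hrZ' : Sum.inl r ∈ vI n g := by
        rcases hsub _ hrZ with e | ⟨e1, _⟩
        · cases e
        · exact e1
      rcases hsub _ hF' with e | ⟨e1, _⟩
      · have e' := Sum.inr.inj e
        rw [e']
        obtain ⟨h1, h2⟩ := hM.al.1 F hFrt r hr hrZ'
        exact ⟨fun h => h1 (hs h), fun f hf => h2 f (hs hf)⟩
      · exact hM.al.1 F' e1 r hr hrZ'
    · intro ho
      have h1 := hM.al.2 ho
      intro A hA B hB
      rcases hrt hA with eA | ⟨eA, nA⟩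
      · rcases hrt hB with eB | ⟨eB, nB⟩
        · rw [eA, eB]
        · exact absurd (h1 eB hFrt) nB
      · exact absurd (h1 eA hFrt) nA
  have hw := (hGW V (vI n g) (vI n g') F hFrt).1 F0 hlt hrt
  exact absurd (hM.mn n g' hPI hM.odd hal) (by omega)

end

theorem pf_QA (hPR : U_PR) (hGW : U_GW) (hCON : T_CON) : U_QA := by
  intro V _ o G R F n g k hev hM hk hkn hg
  have pi := hM.pi
  have h1 : (MG G R).Adj (Sum.inr F) (g 0 (k - 1)) := by
    rw [← hg, pi.adj _ _ _ _ hkn.le (by omega)]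
    exact Or.inl ⟨rfl, Or.inr (by omega)⟩
  have h2 : (MG G R).Adj (Sum.inr F) (g 0 (k + 1)) := by
    rw [← hg, pi.adj _ _ _ _ hkn.le (by omega)]
    exact Or.inl ⟨rfl, Or.inl rfl⟩
  obtain ⟨c, hc, sc⟩ := root_adj h1
  obtain ⟨d, hd, sd⟩ := root_adj h2
  have hcd : c ≠ d := by
    rintro rfl
    have := (pi.inj 0 0 _ _ (by omega) (by omega) (hc.trans hd.symm)).2
    omega
  have hncd : ¬ G.Adj c d := by
    intro e
    have e' : (MG G R).Adj (g 0 (k - 1)) (g 0 (k + 1)) := by rw [hc, hd]; exact e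
    rw [pi.adj _ _ _ _ (by omega) (by omega)] at e'
    omega
  obtain ⟨hcR, hFR, hCn, fc, hfc, hcf⟩ := sc
  obtain ⟨hdR, -, -, fd, hfd, hdf⟩ := sd
  have hcF : c ∉ F := fun h => hcR (hFR h)
  have hdF : d ∉ F := fun h => hdR (hFR h)
  obtain ⟨m, P, hP, hPD⟩ := hCON V G (insert c (insert d F)) c d
    (cn_insert2 hCn hfc hfd hcf hdf) (Or.inl rfl) (Or.inr (Or.inl rfl))
  have hm0 : m ≠ 0 := by
    rintro rfl
    exact hcd hP.eq_of_zero.1
  have hm1 : m ≠ 1 := fun e => hncd (hP.adj_iff.2 e)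
  have hmev : Even m := by
    refine hev m c d P hP hcR hdR hm1 ?_
    intro w hw
    rcases hPD hw with e | e | e
    · exact Or.inl e
    · exact Or.inr (Or.inl e)
    · exact Or.inr (Or.inr (hFR e))
  obtain ⟨p, hp, p0, pm, hPs⟩ := IP.pf hP
  have hpP : ∀ i, i ≤ m → p i ∈ P := fun i hi => by rw [hPs]; exact mem_seg (Nat.zero_le _) hi
  have hpF : ∀ i, 1 ≤ i → i ≤ m - 1 → p i ∈ F := by
    intro i hi1 hi2
    rcases hPD (hpP i (by omega)) with e | e | e
    · rw [← p0] at e
      have := hp.inj _ _ (by omega) (by omega) e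
      omega
    · rw [← pm] at e
      have := hp.inj _ _ (by omega) (by omega) e
      omega
    · exact e
  have hF0 : seg p 1 (m - 1) ⊆ F := by
    rintro w ⟨i, hi1, hi2, rfl⟩
    exact hpF i hi1 hi2
  have hC0 : Cn G (seg p 1 (m - 1)) := ip_cn (hp.seg (by omega) (by omega))
  have e1 : seg p 1 (m - 1) = F := by
    refine replace_root hPR hGW hM hk hkn hg hc hd hF0 ?_ ?_ ⟨hcR, hFR, hCn, fc, hfc, hcf⟩
    · refine ⟨hcR, hF0.trans hFR, hC0, p 1, mem_seg le_rfl (by omega), ?_⟩
      rw [← p0, hp.adj _ _ (by omega) (by omega)]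
      omega
    · refine ⟨hdR, hF0.trans hFR, hC0, p (m - 1), mem_seg (by omega) le_rfl, ?_⟩
      rw [← pm, hp.adj _ _ (by omega) (by omega)]
      omega
  have e2 : P = insert c (insert d F) := by
    refine Set.Subset.antisymm hPD ?_
    rintro w (e | e | e)
    · rw [e, ← p0]; exact hpP 0 (by omega)
    · rw [e, ← pm]; exact hpP m le_rfl
    · rw [← e1] at e
      obtain ⟨i, hi1, hi2, rfl⟩ := e
      exact hpP i (by omega)
  refine ⟨c, d, m, hc, hd, ⟨hcR, hFR, hCn, fc, hfc, hcf⟩, ⟨hdR, hFR, hCn, fd, hfd, hdf⟩,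
    ⟨by omega, hcF, hdF, ?_⟩, hmev⟩
  rw [← e2]
  exact hP

end Pool.Agent.H78.ER3
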