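import Pool.Agent.H20.ER3.Lib

/-!
# er3_modules, row QD: expansion of the root of a corner of a minimal odd prism.
-/

set_option autoImplicit false
set_option linter.unusedVariables false
set_option linter.unusedSectionVars false

namespace Pool.Agent.H78.ER3

open Pool.Agent.H48.ER Pool.Agent.H52.ER2 Pool.Agent.H66.ER2 Pool.Agent.H20.ER3

theorem pf_QD (hQC : U_QC) (hPR : U_PR) (hGW : U_GW) : U_QD := by
  classical
  intro V _ o G R F n g hev hH hM hg
  obtain ⟨y, a2, a3, f, f', m, gy, g2, g3, sy, s2, s3, hCr⟩ := hQC V o G R F n g hev hH hM hg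
  by_contra hcon
  push Not at hcon
  have pi := hM.pi
  have hn0 : 1 ≤ n 0 := pi.pos 0
  have hFR : F ⊆ R := sy.2.1
  have hCn : Cn G F := sy.2.2.1
  have hFrt : F ∈ rt (vI n g) := by
    show Sum.inr F ∈ vI n g
    rw [← hg]
    exact mem_vI (Nat.zero_le _)
  obtain ⟨p, hp, p0, pm, hFs⟩ := IP.pf hCr.ip
  have hpF : ∀ i, i ≤ m → p i ∈ F := fun i hi => by rw [hFs]; exact mem_seg (Nat.zero_le _) hi
  -- the vertices of `F` are not in the prism
  have hnot : ∀ w ∈ F, ∀ j l, l ≤ n j → g j l ≠ Sum.inl w := by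
    intro w hw j l hl e
    have h1 : Sum.inl w ∈ vI n g := by rw [← e]; exact mem_vI hl
    exact (hM.al.1 F hFrt w (hFR hw) h1).1 hw
  -- the neighbours of the vertices of `F` in the prism
  have hnb : ∀ w ∈ F, ∀ j l, l ≤ n j → (MG G R).Adj (Sum.inl w) (g j l) →
      ∃ v, g j l = Sum.inl v ∧ G.Adj w v ∧ ((j = 0 ∧ l = 1) ∨ (j ≠ 0 ∧ l = 0)) := by
    intro w hw j l hl ha
    obtain ⟨v, ev, hv⟩ := inR_adj (hFR hw) ha
    have hvR : v ∉ R := by
      intro hvR
      have h1 : Sum.inl v ∈ vI n g := by rw [← ev]; exact mem_vI hl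
      exact (hM.al.1 F hFrt v hvR h1).2 w hw hv.symm
    have h2 : (MG G R).Adj (g 0 0) (g j l) := by
      rw [hg, ev]
      exact ⟨hvR, hFR, hCn, w, hw, hv.symm⟩
    rw [pi.adj _ _ _ _ (Nat.zero_le _) hl] at h2
    refine ⟨v, ev, hv, ?_⟩
    rcases h2 with ⟨h2, h3⟩ | ⟨h2, h3⟩
    · exact Or.inl ⟨h2.symm, by omega⟩
    · refine Or.inr ⟨fun e => h2 e.symm, by omega⟩
  have adj1 : ∀ i, i ≤ m → ∀ l, 1 ≤ l → l ≤ n 0 →
      ((MG G R).Adj (Sum.inl (p i)) (g 0 l) ↔ i = 0 ∧ l = 1) := by
    intro i hi l hl1 hl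
    constructor
    · intro ha
      obtain ⟨v, ev, hv, h | h⟩ := hnb _ (hpF i hi) 0 l hl ha
      · have e1 : v = y := Sum.inl.inj (by rw [← ev, ← gy, h.2])
        rw [e1] at hv
        have e2 := (hCr.hy _ (hpF i hi)).1 hv.symm
        rw [← p0] at e2
        exact ⟨hp.inj _ _ hi (Nat.zero_le _) e2, h.2⟩
      · exact absurd rfl h.1
    · rintro ⟨rfl, rfl⟩
      rw [gy, p0]
      show G.Adj f y
      exact ((hCr.hy f (by rw [← p0]; exact hpF 0 (Nat.zero_le _))).2 rfl).symm
  have adj2 : ∀ i, i ≤ m → ∀ j l, j ≠ 0 → l ≤ n j →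
      ((MG G R).Adj (Sum.inl (p i)) (g j l) ↔ i = m ∧ l = 0) := by
    intro i hi j l hj hl
    have hfF : f' ∈ F := by rw [← pm]; exact hpF m le_rfl
    constructor
    · intro ha
      obtain ⟨v, ev, hv, h | h⟩ := hnb _ (hpF i hi) j l hl ha
      · exact absurd h.1 hj
      · have hl0 := h.2
        subst hl0
        have e2 : p i = f' := by
          have hj12 : j = 1 ∨ j = 2 := by
            fin_cases j
            · exact absurd rfl hj
            · exact Or.inl rfl
            · exact Or.inr rfl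
          rcases hj12 with e | e
          · rw [e, g2] at ev
            rw [← Sum.inl.inj ev] at hv
            exact (hCr.h2 _ (hpF i hi)).1 hv.symm
          · rw [e, g3] at ev
            rw [← Sum.inl.inj ev] at hv
            exact (hCr.h3 _ (hpF i hi)).1 hv.symm
        rw [← pm] at e2
        exact ⟨hp.inj _ _ hi le_rfl e2, rfl⟩
    · rintro ⟨rfl, rfl⟩
      rw [pm]
      have hj12 : j = 1 ∨ j = 2 := by
        fin_cases j
        · exact absurd rfl hj
        · exact Or.inl rfl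
        · exact Or.inr rfl
      rcases hj12 with e | e
      · rw [e, g2]
        show G.Adj f' a2
        exact ((hCr.h2 f' hfF).2 rfl).symm
      · rw [e, g3]
        show G.Adj f' a3
        exact ((hCr.h3 f' hfF).2 rfl).symm
  obtain ⟨h, hh⟩ : ∃ h : ℕ → V ⊕ Set V, h = fun x => if x ≤ m then Sum.inl (p (m - x)) else
    g 0 (x - m) := ⟨_, rfl⟩
  have h1 : ∀ x, x ≤ m → h x = Sum.inl (p (m - x)) := fun x hx => by rw [hh]; exact if_pos hx
  have h2 : ∀ x, ¬ x ≤ m → h x = g 0 (x - m) := fun x hx => by rw [hh]; exact if_neg hx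
  have hPF : PF (MG G R) (n 0 + m) h := by
    constructor
    · intro i j hi hj e
      by_cases k1 : i ≤ m <;> by_cases k2 : j ≤ m
      · rw [h1 i k1, h1 j k2] at e
        have := hp.inj _ _ (by omega) (by omega) (Sum.inl.inj e)
        omega
      · rw [h1 i k1, h2 j k2] at e
        exact absurd e.symm (hnot _ (hpF _ (by omega)) 0 _ (by omega))
      · rw [h2 i k1, h1 j k2] at e
        exact absurd e (hnot _ (hpF _ (by omega)) 0 _ (by omega))
      · rw [h2 i k1, h2 j k2] at e
        have := (pi.inj 0 0 _ _ (by omega) (by omega) e).2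
        omega
    · intro i j hi hj
      by_cases k1 : i ≤ m <;> by_cases k2 : j ≤ m
      · rw [h1 i k1, h1 j k2]
        show G.Adj (p (m - i)) (p (m - j)) ↔ _
        rw [hp.adj _ _ (by omega) (by omega)]
        omega
      · rw [h1 i k1, h2 j k2, adj1 _ (by omega) _ (by omega) (by omega)]
        omega
      · rw [h2 i k1, h1 j k2, SimpleGraph.adj_comm, adj1 _ (by omega) _ (by omega) (by omega)]
        omega
      · rw [h2 i k1, h2 j k2, pi.adj _ _ _ _ (by omega) (by omega)]
        constructor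
        · rintro (⟨_, e⟩ | ⟨e, _⟩)
          · omega
          · exact absurd rfl e
        · intro e
          exact Or.inl ⟨rfl, by omega⟩
  have hcross : ∀ j k' l, j ≠ 0 → k' ≤ n 0 + m → l ≤ n j → h k' ≠ g j l ∧
      ((MG G R).Adj (h k') (g j l) ↔ (k' = 0 ∧ l = 0) ∨ (k' = n 0 + m ∧ l = n j)) := by
    intro j k' l hj hk' hl
    by_cases k1 : k' ≤ m
    · rw [h1 k' k1]
      refine ⟨fun e => hnot _ (hpF _ (by omega)) j l hl e.symm, ?_⟩
      rw [adj2 _ (by omega) j l hj hl]
      omega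
    · rw [h2 k' k1]
      refine ⟨fun e => hj (pi.inj 0 j _ l (by omega) hl e).1.symm, ?_⟩
      rw [pi.adj _ _ _ _ (by omega) hl]
      constructor
      · rintro (⟨e, _⟩ | ⟨_, e⟩)
        · exact absurd e.symm hj
        · omega
      · intro e
        refine Or.inr ⟨fun e' => hj e'.symm, by omega⟩
  have hPI := hPR _ _ n g (n 0 + m) h pi (by omega) hPF hcross
  obtain ⟨g', hg'⟩ : ∃ g', g' = Function.update g 0 h := ⟨_, rfl⟩
  obtain ⟨n', hn'⟩ : ∃ n', n' = Function.update n 0 (n 0 + m) := ⟨_, rfl⟩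
  rw [← hg', ← hn'] at hPI
  have hodd : ∀ i, Odd (n' i) := by
    intro i
    by_cases hi : i = 0
    · subst hi
      rw [hn', Function.update_self]
      exact (hM.odd 0).add_even hCr.ev
    · rw [hn', Function.update_of_ne hi]
      exact hM.odd i
  have hsub : ∀ v, v ∈ vI n' g' → (∃ w ∈ F, v = Sum.inl w) ∨ (v ∈ vI n g ∧ v ≠ Sum.inr F) := by
    rintro v ⟨i, l, hl, rfl⟩
    by_cases hi : i = 0
    · subst hi
      rw [hn', Function.update_self] at hl
      rw [hg', Function.update_self]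
      by_cases k1 : l ≤ m
      · left
        exact ⟨_, hpF _ (by omega), h1 l k1⟩
      · right
        rw [h2 l k1]
        refine ⟨mem_vI (by omega), fun e => ?_⟩
        rw [← hg] at e
        have := (pi.inj 0 0 _ _ (by omega) (Nat.zero_le _) e).2
        omega
    · right
      rw [hn', Function.update_of_ne hi] at hl
      rw [hg', Function.update_of_ne hi]
      refine ⟨mem_vI hl, fun e => ?_⟩
      rw [← hg] at e
      exact hi (pi.inj i 0 l 0 hl (Nat.zero_le _) e).1
  have hrt : rt (vI n' g') ⊆ rt (vI n g) \ {F} := by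
    intro F' hF'
    rcases hsub _ hF' with ⟨w, _, e⟩ | ⟨e1, e2⟩
    · cases e
    · exact ⟨e1, fun e => e2 (congrArg Sum.inr e)⟩
  have hal : Al o G R (vI n' g') := by
    constructor
    · intro F' hF' r hr hrZ
      obtain ⟨k1, k2⟩ := hrt hF'
      have hT := hcon F' k1 k2
      rcases hsub _ hrZ with ⟨w, hw, e⟩ | ⟨e1, _⟩
      · have e' := Sum.inl.inj e
        rw [e']
        constructor
        · intro hwF
          exact hT ⟨w, hw, w, hwF, Or.inl rfl⟩
        · intro x hx ha
          exact hT ⟨w, hw, x, hx, Or.inr ha⟩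
      · exact hM.al.1 F' k1 r hr e1
    · intro ho
      exact (hM.al.2 ho).anti (hrt.trans Set.sdiff_subset)
  have hw := (hGW V (vI n g) (vI n' g') F hFrt).2.2 hrt
  exact absurd (hM.mn n' g' hPI hodd hal) (by omega)

end Pool.Agent.H78.ER3
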